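import Pool.Agent.Helper74.DIH.Goals

set_option autoImplicit false

namespace Pool.Agent.Helper77.DIH

open Pool.Agent.Helper52.Wq2 Pool.Agent.Helper61.NW Pool.Agent.Helper74.DIH
open scoped Nat

universe u

variable {Γ : Type u} [Group Γ]

theorem cay_adj_mul {S : Set Γ} (hS : IsGen S) (a t : Γ) (ht : t ∈ S) :
    (cay S).Adj a (a * t) := by
  unfold cay
  rw [SimpleGraph.fromRel_adj]
  refine ⟨fun e => ?_, Or.inl ?_⟩
  · have : t = 1 := by
      have := congrArg (fun x => a⁻¹ * x) e
      simpa using this.symm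
    exact hS.2.2 (this ▸ ht)
  · rwa [inv_mul_cancel_left]

theorem cay_adj_iff {S : Set Γ} (hS : IsGen S) (a b : Γ) (h : (cay S).Adj a b) :
    ∃ t ∈ S, b = a * t := by
  unfold cay at h
  rw [SimpleGraph.fromRel_adj] at h
  obtain ⟨_, h | h⟩ := h
  · exact ⟨_, h, by group⟩
  · refine ⟨_, hS.2.1 _ h, by group⟩

/-- Left multiplication. -/
def lm (S : Set Γ) (x : Γ) : cay S ≃g cay S where
  toEquiv := Equiv.mulLeft x
  map_rel_iff' := by
    intro a b
    unfold cay
    rw [SimpleGraph.fromRel_adj, SimpleGraph.fromRel_adj]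
    simp only [Equiv.coe_mulLeft, ne_eq, mul_right_inj, mul_inv_rev, mul_assoc,
      inv_mul_cancel_left]

theorem lm_apply (S : Set Γ) (x g : Γ) : lm S x g = x * g := rfl

theorem cay_conn {S : Set Γ} (hS : IsGen S) : Conn (cay S) Set.univ := by
  refine ⟨⟨1, trivial⟩, fun A _ hne hcl => ?_⟩
  have key : ∀ g ∈ Subgroup.closure S, (∀ a ∈ A, a * g ∈ A) ∧ (∀ a ∈ A, a * g⁻¹ ∈ A) := by
    intro g hg
    induction hg using Subgroup.closure_induction with
    | mem t ht =>
      exact ⟨fun a ha => hcl a ha _ trivial (cay_adj_mul hS a t ht),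
        fun a ha => hcl a ha _ trivial (cay_adj_mul hS a _ (hS.2.1 t ht))⟩
    | one => simp
    | mul x y _ _ hx hy =>
      refine ⟨fun a ha => ?_, fun a ha => ?_⟩
      · rw [← mul_assoc]; exact hy.1 _ (hx.1 a ha)
      · rw [mul_inv_rev, ← mul_assoc]; exact hx.2 _ (hy.2 a ha)
    | inv x _ hx =>
      refine ⟨hx.2, fun a ha => ?_⟩
      rw [inv_inv]
      exact hx.1 a ha
  obtain ⟨a, ha⟩ := hne
  intro b _
  have := (key (a⁻¹ * b) (by rw [hS.1]; trivial)).1 a ha
  rwa [mul_inv_cancel_left] at this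

open Classical in
/-- The successor on the lines. -/
noncomputable def psi (ε : Γ →* ℤˣ) (p q : Γ) (hpq : ε p = ε q) : Equiv.Perm Γ where
  toFun g := if ε g = 1 then g * p else g * q
  invFun g := if ε (g * p⁻¹) = 1 then g * p⁻¹ else g * q⁻¹
  left_inv := by
    intro g
    by_cases h : ε g = 1
    · simp only [h, if_true, mul_inv_cancel_right]
    · have h2 : ε (g * q * p⁻¹) = ε g := by
        rw [map_mul, map_mul, map_inv, hpq, mul_inv_cancel_right]
      simp only [h, h2, if_false, mul_inv_cancel_right]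
  right_inv := by
    intro g
    by_cases h : ε (g * p⁻¹) = 1
    · simp only [h, if_true, inv_mul_cancel_right]
    · have h2 : ε (g * q⁻¹) = ε (g * p⁻¹) := by
        rw [map_mul, map_mul, map_inv, map_inv, hpq]
      simp only [h, h2, if_false, inv_mul_cancel_right]

theorem psi_pos {ε : Γ →* ℤˣ} {p q : Γ} {hpq : ε p = ε q} {g : Γ} (h : ε g = 1) :
    psi ε p q hpq g = g * p := by
  classical
  show (if ε g = 1 then g * p else g * q) = _
  rw [if_pos h]

theorem psi_neg {ε : Γ →* ℤˣ} {p q : Γ} {hpq : ε p = ε q} {g : Γ} (h : ε g = -1) :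
    psi ε p q hpq g = g * q := by
  classical
  have h' : ¬ ε g = 1 := by
    rw [h]
    decide
  show (if ε g = 1 then g * p else g * q) = _
  rw [if_neg h']

theorem pm (ε : Γ →* ℤˣ) (g : Γ) : ε g = 1 ∨ ε g = -1 := Int.units_eq_one_or _

/-- Left multiplication by elements with sign one commutes. -/
theorem psi_comm {ε : Γ →* ℤˣ} {p q : Γ} {hpq : ε p = ε q} {x : Γ} (hx : ε x = 1) (g : Γ) :
    x * psi ε p q hpq g = psi ε p q hpq (x * g) := by
  have e : ε (x * g) = ε g := by rw [map_mul, hx, one_mul]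
  rcases pm ε g with h | h
  · rw [psi_pos h, psi_pos (e.trans h), mul_assoc]
  · rw [psi_neg h, psi_neg (e.trans h), mul_assoc]

/-- **D5.** The assembly. -/
theorem dih (d1 : D1Stmt.{u}) (d2 : D2Stmt.{u}) (d3 : D3Stmt.{u}) (d4 : D4Stmt.{u}) :
    DihStmt.{u} := by
  intro Γ _ ε h S hD hS hfin
  obtain ⟨y₀, H, p, q, hH, hp, hq, hcase, hXp, hXq, hXu⟩ := d3 Γ ε h S hD hS hfin
  have hpq : ε p = ε q := by
    rcases hcase with ⟨h1, rfl⟩ | ⟨h1, h2⟩
    · rw [map_inv, h1, inv_one]
    · rw [h1, h2]
  set ψ := psi ε p q hpq with hψ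
  have ψp : ∀ g, ε g = 1 → ψ g = g * p := fun g e => psi_pos e
  have ψn : ∀ g, ε g = -1 → ψ g = g * q := fun g e => psi_neg e
  set X : Γ → ℤ := fun g => 4 * h g + (ε g : ℤ) * y₀ with hX
  have hXmul : ∀ g t, X (g * t) - X g = (ε g : ℤ) * (4 * h t + ((ε t : ℤ) - 1) * y₀) := by
    intro g t
    simp only [hX]
    rw [hD.coc, map_mul, Units.val_mul]
    ring
  have hXψ : ∀ g, X (ψ g) = X g + H := by
    intro g
    rcases pm ε g with e | e
    · have := hXmul g p
      rw [ψp _ e]
      rw [e, hXp] at this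
      simp only [Units.val_one, one_mul] at this
      omega
    · have := hXmul g q
      rw [ψn _ e]
      rw [e, hXq] at this
      simp only [Units.val_neg, Units.val_one] at this
      omega
  obtain ⟨hF, hKn, hK0⟩ := d4 Γ ε h hD y₀ H ψ hH (fun g => by
    have := hXψ g
    simp only [hX] at this
    exact this)
  set k := ({g | ε g = 1 ∧ h g = 0} : Set Γ).ncard with hk
  set n := ({g | 0 ≤ X g ∧ X g < H} : Set Γ).ncard with hn
  have hkn : k ≤ n := hKn
  have hn0 : 0 < n := lt_of_lt_of_le hK0 hkn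
  have hbound : ∀ m : ℕ, m ≤ k ! * k → 2 * m ≤ 2 * (n ! * (n * n)) := by
    intro m hm
    have h1 : k ! * k ≤ n ! * n := Nat.mul_le_mul (Nat.factorial_le hkn) hkn
    have h2 : n ! * n ≤ n ! * (n * n) :=
      Nat.mul_le_mul_left _ (Nat.le_mul_of_pos_left n hn0)
    omega
  have hadjψ : ∀ v, (cay S).Adj v (ψ v) := by
    intro v
    rcases pm ε v with e | e
    · rw [ψp _ e]; exact cay_adj_mul hS v p hp
    · rw [ψn _ e]; exact cay_adj_mul hS v q hq
  have hedge : ∀ v w, (cay S).Adj v w → |X w - X v| ≤ H := by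
    intro v w hvw
    obtain ⟨t, ht, rfl⟩ := cay_adj_iff hS v w hvw
    rw [hXmul]
    have := hXu t ht
    rcases pm ε v with e | e
    · rw [e]; simpa using this
    · rw [e]
      simp only [Units.val_neg, Units.val_one, neg_mul, one_mul, abs_neg]
      exact this
  -- the period
  have hper : ∃ m : ℕ, 0 < m ∧ m ≤ 2 * (n ! * (n * n)) ∧
      ∃ f : cay S ≃g cay S, ∀ v, f v = (ψ ^ m) v := by
    rcases hcase with ⟨h1, rfl⟩ | ⟨h1, h2⟩
    · obtain ⟨m, hm, hmk, hc⟩ := d2 Γ ε h hD p h1
      have hb := hbound m hmk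
      refine ⟨m, hm, by omega, lm S (p ^ m), fun v => ?_⟩
      rw [lm_apply, hc]
      have hit : ∀ j : ℕ, (ψ ^ j) v = v * p ^ ((ε v : ℤ) * (j : ℤ)) ∧ ε ((ψ ^ j) v) = ε v := by
        intro j
        induction j with
        | zero => simp
        | succ j ih =>
          obtain ⟨ih1, ih2⟩ := ih
          rw [pow_succ', Equiv.Perm.mul_apply]
          rcases pm ε v with e | e
          · have e2 := ih2.trans e
            rw [ψp _ e2, map_mul, ih2, h1, mul_one]
            refine ⟨?_, rfl⟩
            rw [ih1, e, mul_assoc, ← zpow_add_one]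
            congr 2 <;> push_cast <;> ring
          · have e2 := ih2.trans e
            rw [ψn _ e2, map_mul, ih2, map_inv, h1, inv_one, mul_one]
            refine ⟨?_, rfl⟩
            rw [ih1, e, mul_assoc, ← zpow_sub_one]
            congr 2 <;> push_cast <;> ring
      rw [(hit m).1]
    · have hpq1 : ε (p * q) = 1 := by rw [map_mul, h1, h2]; decide
      obtain ⟨m, hm, hmk, hc⟩ := d2 Γ ε h hD (p * q) hpq1
      have hb := hbound m hmk
      refine ⟨2 * m, by omega, hb, lm S ((p * q) ^ m), fun v => ?_⟩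
      rw [lm_apply]
      have hqp : (q * p) ^ m = (p * q) ^ (-(m : ℤ)) := by
        have e1 := hc p
        rw [h1] at e1
        have e2 : (p * q) ^ m * p = p * (q * p) ^ m := by
          clear e1 hc hb hmk hm
          induction m with
          | zero => simp
          | succ m ih => rw [pow_succ', mul_assoc, ih, pow_succ' (q * p)]; simp only [mul_assoc]
        rw [e2] at e1
        have := mul_left_cancel e1
        rw [this]
        simp
      have hit : ∀ j : ℕ, (ψ ^ (2 * j)) v = v * (if ε v = 1 then (p * q) ^ j else (q * p) ^ j) ∧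
          ε ((ψ ^ (2 * j)) v) = ε v := by
        intro j
        induction j with
        | zero => simp
        | succ j ih =>
          obtain ⟨ih1, ih2⟩ := ih
          have e3 : 2 * (j + 1) = (2 * j + 1) + 1 := by ring
          rw [e3, pow_succ', Equiv.Perm.mul_apply, pow_succ', Equiv.Perm.mul_apply]
          rcases pm ε v with e | e
          · have e2 := ih2.trans e
            have e4 : ε ((ψ ^ (2 * j)) v * p) = -1 := by rw [map_mul, e2, h1, one_mul]
            rw [ψp _ e2, ψn _ e4]
            rw [ih1, if_pos e, if_pos e]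
            refine ⟨?_, ?_⟩
            · rw [pow_succ]; group
            · rw [← map_one ε] at e
              have : ε (v * (p * q) ^ j * p * q) = ε v := by
                rw [mul_assoc (v * (p * q) ^ j), map_mul, map_mul, map_pow, hpq1, one_pow,
                  mul_one, mul_one]
              exact this
          · have hne : ¬ ε v = 1 := by rw [e]; decide
            have e2 := ih2.trans e
            have e4 : ε ((ψ ^ (2 * j)) v * q) = 1 := by rw [map_mul, e2, h2]; decide
            have hqp1 : ε (q * p) = 1 := by rw [map_mul, h1, h2]; decide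
            rw [ψn _ e2, ψp _ e4]
            rw [ih1, if_neg hne, if_neg hne]
            refine ⟨?_, ?_⟩
            · rw [pow_succ]; group
            · rw [mul_assoc (v * (q * p) ^ j), map_mul, map_mul, map_pow, hqp1, one_pow,
                  mul_one, mul_one]
      rw [(hit m).1, hc]
      rcases pm ε v with e | e
      · rw [if_pos e, e]; simp
      · rw [if_neg (by rw [e]; decide), e, hqp]; simp
  obtain ⟨m, hm, hmn, hf⟩ := hper
  -- transitivity
  have htr : ∀ v w : Γ, ∃ (f : cay S ≃g cay S) (e : ℤ), (e = 1 ∨ e = -1) ∧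
      (∃ j : ℤ, f v = (ψ ^ j) w) ∧ ∀ x, f (ψ x) = (ψ ^ e) (f x) := by
    intro v w
    have hpos : ∀ (x : Γ), ε x = 1 → ∀ y, lm S x (ψ y) = (ψ ^ (1 : ℤ)) (lm S x y) := by
      intro x hx y
      rw [lm_apply, lm_apply, zpow_one, hψ, psi_comm hx]
    rcases hcase with ⟨h1, rfl⟩ | ⟨h1, h2⟩
    · rcases pm ε (w * v⁻¹) with e | e
      · refine ⟨lm S (w * v⁻¹), 1, Or.inl rfl, ⟨0, ?_⟩, hpos _ e⟩
        rw [lm_apply, inv_mul_cancel_right]
        rfl
      · refine ⟨lm S (w * v⁻¹), -1, Or.inr rfl, ⟨0, ?_⟩, fun x => ?_⟩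
        · rw [lm_apply, inv_mul_cancel_right]
          rfl
        · rw [lm_apply, lm_apply, zpow_neg_one, eq_comm, Equiv.Perm.inv_eq_iff_eq, eq_comm]
          generalize w * v⁻¹ = z at e
          rcases pm ε x with e' | e'
          · have e2 : ε (z * (x * p)) = -1 := by
              rw [map_mul, map_mul, e, e', h1]; decide
            rw [ψp _ e', ψn _ e2]
            group
          · have e2 : ε (z * (x * p⁻¹)) = 1 := by
              rw [map_mul, map_mul, map_inv, e, e', h1]; decide
            rw [ψn _ e', ψp _ e2]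
            group
    · rcases pm ε (w * v⁻¹) with e | e
      · refine ⟨lm S (w * v⁻¹), 1, Or.inl rfl, ⟨0, ?_⟩, hpos _ e⟩
        rw [lm_apply, inv_mul_cancel_right]
        rfl
      · have e5 : ε (ψ w * v⁻¹) = 1 := by
          rcases pm ε w with e' | e'
          · rw [ψp _ e', map_mul, map_mul, h1, mul_comm (ε w), mul_assoc, ← map_mul, e]
            decide
          · rw [ψn _ e', map_mul, map_mul, h2, mul_comm (ε w), mul_assoc, ← map_mul, e]
            decide
        refine ⟨lm S (ψ w * v⁻¹), 1, Or.inl rfl, ⟨1, ?_⟩, hpos _ e5⟩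
        rw [lm_apply, inv_mul_cancel_right, zpow_one]
  obtain ⟨G', hL, hI⟩ := d1 Γ (cay S) X H ψ m n hH hXψ hadjψ hedge hF rfl hn0 hm hf
    (cay_conn hS) htr
  exact ⟨n, m, G', hmn, hL, hI⟩

end Pool.Agent.Helper77.DIH
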